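import Pool.Agent.W312.TP.Stm

/-! TP-BEXP: expand keeps the path representation. -/

set_option autoImplicit false

namespace Pool.Agent.W681.TP

open Pool.Agent.W312.TP

/-- the new edges, numbered from `k` on -/
def NE (n : ℕ) (L : List Slot) (k : ℕ) : List (ℕ × ℕ) :=
  (L.zipIdx k).flatMap fun q => [(q.1.2.1.1, n + q.2), (q.1.2.2.1, n + q.2)]

/-- the new slots, numbered from `k` on -/
def NS (n N : ℕ) (L : List Slot) (k : ℕ) : List Slot :=
  (L.zipIdx k).flatMap fun q =>
    [(N + q.2, q.1.2.1, (n + q.2, false)), (N + q.2, (n + q.2, true), q.1.2.2)]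

theorem step (n N : ℕ) : ∀ (L : List Slot) (k : ℕ) (E : Set (ℕ × ℕ)) (e : ℕ → Bool → ℕ)
    (D : List Slot), Built (n + k) (N + k) E e → SlotOk (n + k) (N + k) e (D ++ L) →
    ∃ e' : ℕ → Bool → ℕ, Built (n + k + L.length) (N + k + L.length)
      {z | z ∈ E ∨ z ∈ NE n L k} e' ∧
      SlotOk (n + k + L.length) (N + k + L.length) e' (D ++ NS n N L k) := by
  intro L
  induction L with
  | nil =>
    intro k E e D h1 h2
    refine ⟨e, ?_, ?_⟩
    · have : {z | z ∈ E ∨ z ∈ NE n [] k} = E := by
        ext z
        simp [NE]
      rw [this]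
      exact h1
    · simpa [NS] using h2
  | cons q L ih =>
    intro k E e D h1 h2
    obtain ⟨ν, x, y⟩ := q
    obtain ⟨hnd, hsl⟩ := h2
    have hq := hsl (ν, x, y) (by simp)
    obtain ⟨q1, q2, q3, q4, q5, q6⟩ := hq
    simp only at q1 q2 q3 q4 q5 q6
    have hop := Built.op h1 ν [x, y] 1 q1 (by
      intro z hz
      simp only [List.mem_cons, List.not_mem_nil, or_false] at hz
      rcases hz with rfl | rfl
      · exact ⟨q2, q5⟩
      · exact ⟨q3, q6⟩) (by
      simp only [List.map_cons, List.map_nil, List.nodup_cons, List.mem_cons, List.not_mem_nil,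
        or_false, not_false_eq_true, List.nodup_nil, and_true]
      exact q4)
    have hE : {z : ℕ × ℕ | z ∈ E ∨ (n + k ≤ z.2 ∧ z.2 < n + k + 1 ∧
        (z.1 ∈ [x, y].map Prod.fst ∨ (n + k ≤ z.1 ∧ z.1 < z.2)))} =
        {z | z ∈ E ∨ z = (x.1, n + k) ∨ z = (y.1, n + k)} := by
      ext z
      obtain ⟨a, b⟩ := z
      simp only [List.map_cons, List.map_nil, List.mem_cons, List.not_mem_nil, or_false,
        Set.mem_setOf_eq, Prod.mk.injEq]
      constructor
      · rintro (h | ⟨h3, h4, h5 | h5⟩)
        · exact Or.inl h
        · right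
          rcases h5 with h5 | h5
          · left; exact ⟨h5, by omega⟩
          · right; exact ⟨h5, by omega⟩
        · omega
      · rintro (h | ⟨h3, h4⟩ | ⟨h3, h4⟩)
        · exact Or.inl h
        · right; exact ⟨by omega, by omega, Or.inl (Or.inl h3)⟩
        · right; exact ⟨by omega, by omega, Or.inl (Or.inr h3)⟩
    rw [hE] at hop
    set e₁ : ℕ → Bool → ℕ := fun v b => if (v, b) ∈ [x, y] ∨ n + k ≤ v then N + k else e v b
      with he₁
    -- the old ends are different from the ends of the slot
    have hall : ∀ z ∈ (D ++ (ν, x, y) :: L).flatMap (fun q : Slot => [q.2.1, q.2.2]),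
        z.1 < n + k := by
      intro z hz
      rw [List.mem_flatMap] at hz
      obtain ⟨r, hr, hz⟩ := hz
      have := hsl r hr
      simp only [List.mem_cons, List.not_mem_nil, or_false] at hz
      rcases hz with rfl | rfl
      · exact this.2.1
      · exact this.2.2.1
    have hperm : ((ν, x, y) :: (D ++ L)).Perm (D ++ (ν, x, y) :: L) := List.perm_middle.symm
    have hnd2 : (((ν, x, y) :: (D ++ L)).flatMap (fun q : Slot => [q.2.1, q.2.2])).Nodup :=
      ((hperm.flatMap_right _).nodup_iff).2 hnd
    simp only [List.flatMap_cons, List.cons_append, List.nil_append] at hnd2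
    rw [List.nodup_cons, List.nodup_cons] at hnd2
    obtain ⟨hx, hy, hnd3⟩ := hnd2
    have hrest : ∀ r ∈ D ++ L, ∀ z, z = r.2.1 ∨ z = r.2.2 →
        z ≠ x ∧ z ≠ y ∧ z.1 < n + k := by
      intro r hr z hz
      have hzm : z ∈ (D ++ L).flatMap (fun q : Slot => [q.2.1, q.2.2]) := by
        rw [List.mem_flatMap]
        refine ⟨r, hr, ?_⟩
        simp only [List.mem_cons, List.not_mem_nil, or_false]
        exact hz
      refine ⟨?_, ?_, ?_⟩
      · rintro rfl
        exact hx (List.mem_cons_of_mem _ hzm)
      · rintro rfl
        exact hy hzm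
      · apply hall
        rw [List.mem_flatMap] at hzm ⊢
        obtain ⟨r', hr', hz'⟩ := hzm
        refine ⟨r', ?_, hz'⟩
        rw [List.mem_append] at hr' ⊢
        rcases hr' with h | h
        · exact Or.inl h
        · exact Or.inr (List.mem_cons_of_mem _ h)
    have he1 : ∀ z : End, z ≠ x → z ≠ y → z.1 < n + k → e₁ z.1 z.2 = e z.1 z.2 := by
      intro z hz1 hz2 hz3
      rw [he₁]
      simp only
      rw [if_neg]
      rintro (h | h)
      · simp only [List.mem_cons, List.not_mem_nil, or_false] at h
        rcases h with h | h
        · exact hz1 h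
        · exact hz2 h
      · omega
    have hex : e₁ x.1 x.2 = N + k := by
      rw [he₁]
      simp only
      rw [if_pos]
      left
      simp
    have hey : e₁ y.1 y.2 = N + k := by
      rw [he₁]
      simp only
      rw [if_pos]
      left
      simp
    have hen : ∀ b, e₁ (n + k) b = N + k := by
      intro b
      rw [he₁]
      simp only
      rw [if_pos]
      right
      exact le_rfl
    have hslot : SlotOk (n + (k + 1)) (N + (k + 1)) e₁
        ((D ++ [(N + k, x, (n + k, false)), (N + k, (n + k, true), y)]) ++ L) := by
      constructor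
      · have hp : (((D ++ [(N + k, x, (n + k, false)), (N + k, (n + k, true), y)]) ++ L).flatMap
            (fun q : Slot => [q.2.1, q.2.2])).Perm
            (((n + k, false) : End) :: ((n + k, true) : End) ::
              (D ++ (ν, x, y) :: L).flatMap (fun q : Slot => [q.2.1, q.2.2])) := by
          simp only [List.flatMap_append, List.flatMap_cons, List.flatMap_nil, List.cons_append,
            List.nil_append, List.append_assoc]
          set A := D.flatMap (fun q : Slot => [q.2.1, q.2.2])
          set B := L.flatMap (fun q : Slot => [q.2.1, q.2.2])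
          have p1 : (A ++ x :: (n + k, false) :: (n + k, true) :: y :: B).Perm
              (((n + k, false) : End) :: ((A ++ [x]) ++ (n + k, true) :: y :: B)) := by
            have := List.perm_middle (a := ((n + k, false) : End)) (l₁ := A ++ [x])
              (l₂ := (n + k, true) :: y :: B)
            simpa using this
          have p2 : ((A ++ [x]) ++ (n + k, true) :: y :: B).Perm
              (((n + k, true) : End) :: (A ++ x :: y :: B)) := by
            have := List.perm_middle (a := ((n + k, true) : End)) (l₁ := A ++ [x])
              (l₂ := y :: B)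
            simpa using this
          exact p1.trans (p2.cons _)
        rw [hp.nodup_iff, List.nodup_cons, List.nodup_cons]
        refine ⟨?_, ?_, hnd⟩
        · intro h
          rw [List.mem_cons] at h
          rcases h with h | h
          · simp at h
          · have := hall _ h
            simp at this
        · intro h
          have := hall _ h
          simp at this
      · intro r hr
        rw [List.mem_append, List.mem_append] at hr
        have hold : r ∈ D ++ L → r.1 < N + (k + 1) ∧ r.2.1.1 < n + (k + 1) ∧
            r.2.2.1 < n + (k + 1) ∧ r.2.1.1 ≠ r.2.2.1 ∧ e₁ r.2.1.1 r.2.1.2 = r.1 ∧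
            e₁ r.2.2.1 r.2.2.2 = r.1 := by
          intro hr'
          have hr2 : r ∈ D ++ (ν, x, y) :: L := by
            rw [List.mem_append] at hr' ⊢
            rcases hr' with h | h
            · exact Or.inl h
            · exact Or.inr (List.mem_cons_of_mem _ h)
          obtain ⟨r1, r2, r3, r4, r5, r6⟩ := hsl r hr2
          obtain ⟨z1, z2, z3⟩ := hrest r hr' r.2.1 (Or.inl rfl)
          obtain ⟨w1, w2, w3⟩ := hrest r hr' r.2.2 (Or.inr rfl)
          refine ⟨by omega, by omega, by omega, r4, ?_, ?_⟩
          · rw [he1 r.2.1 z1 z2 z3, r5]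
          · rw [he1 r.2.2 w1 w2 w3, r6]
        rcases hr with (hr | hr) | hr
        · exact hold (List.mem_append_left _ hr)
        · simp only [List.mem_cons, List.not_mem_nil, or_false] at hr
          rcases hr with rfl | rfl
          · refine ⟨by simp only; omega, by simp only; omega, by simp only; omega, ?_, hex, hen _⟩
            simp only
            omega
          · refine ⟨by simp only; omega, by simp only; omega, by simp only; omega, ?_, hen _, hey⟩
            simp only
            omega
        · exact hold (List.mem_append_right _ hr)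
    obtain ⟨e', hb, hs⟩ := ih (k + 1) _ e₁ _ (by simpa [add_assoc] using hop) hslot
    refine ⟨e', ?_, ?_⟩
    · have e1 : n + k + ((ν, x, y) :: L : List Slot).length = n + (k + 1) + L.length := by
        simp only [List.length_cons]; omega
      have e2 : N + k + ((ν, x, y) :: L : List Slot).length = N + (k + 1) + L.length := by
        simp only [List.length_cons]; omega
      have e3 : {z | z ∈ E ∨ z ∈ NE n ((ν, x, y) :: L) k} =
          {z | z ∈ {z | z ∈ E ∨ z = (x.1, n + k) ∨ z = (y.1, n + k)} ∨ z ∈ NE n L (k + 1)} := by
        ext z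
        simp only [NE, List.zipIdx_cons, List.flatMap_cons, List.cons_append, List.nil_append,
          List.mem_cons, Set.mem_setOf_eq]
        tauto
      rw [e1, e2, e3]
      exact hb
    · have e1 : n + k + ((ν, x, y) :: L : List Slot).length = n + (k + 1) + L.length := by
        simp only [List.length_cons]; omega
      have e2 : N + k + ((ν, x, y) :: L : List Slot).length = N + (k + 1) + L.length := by
        simp only [List.length_cons]; omega
      have e3 : D ++ NS n N ((ν, x, y) :: L) k =
          (D ++ [(N + k, x, (n + k, false)), (N + k, (n + k, true), y)]) ++ NS n N L (k + 1) := by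
        simp only [NS, List.zipIdx_cons, List.flatMap_cons, List.append_assoc]
      rw [e1, e2, e3]
      exact hs

theorem proof_BEXP : Pool.Agent.W312.TP.BEXP := by
  intro s ⟨e, h1, h2⟩
  obtain ⟨e', h3, h4⟩ := step s.1 s.2.1 s.2.2.2 0 _ e [] h1 (by simpa using h2)
  refine ⟨e', ?_, ?_⟩
  · have : {z | z ∈ (expand s).2.2.1} = {z | z ∈ {z | z ∈ s.2.2.1} ∨ z ∈ NE s.1 s.2.2.2 0} := by
      ext z
      simp only [expand, newEdges, NE, List.mem_append, Set.mem_setOf_eq]
    rw [this]
    exact h3
  · exact h4

end Pool.Agent.W681.TP
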